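import Pool.Agent.N204.HR.Stm2

/-!
# The degrees of the generated classes
-/

set_option linter.unusedSectionVars false

open CategoryTheory AlgebraicGeometry TensorProduct

universe u

namespace Pool.Agent.N505.HR

open Module
open Pool.Agent.H914 Pool.Agent.H914.VarClass Pool.Agent.H914.VarClass.Obj
  Pool.Agent.H914.WeilCohomology
open Pool.Agent.Y133.Half (pw)
open Pool.Agent.Y121.AHS
open Pool.Agent.N996.BP (IsCoordinateMap RForm)
open Pool.Agent.N204.RD.Raw (Coh IsLin IsLinear IsSub InSpan coh ap vzero vadd vsmul)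
open Pool.Agent.N204.HR Pool.Agent.N204.HR.Raw
open Pool.Agent.N211.BT (mulB mulB_apply mapB mapB_apply trB trB_apply emL_deg mapL_deg)

variable {k : Type u} [Field k] {𝒱 : VarClass k} {ops : CycleOps 𝒱}

section Pair

variable {W : WeilCohomology.{u, 0} ops} {Y : 𝒱.Obj}

/-- A class which is orthogonal to the classes of the other degrees is homogeneous (a copy of
`Pool.Agent.N211.BT.deg_of_pair`). -/
lemma deg_of_pair {y : W.H Y} {l : ℕ}
    (h : ∀ i, ∀ x ∈ W.gr Y i, i + l ≠ 2 * Y.dim → W.tr Y (x * y) = 0) : y ∈ W.gr Y l := by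
  have h1 : y - H914.proj (W.isInternal Y) l y = 0 := by
    apply nondeg_right
    intro c
    refine gr_induction (W.isInternal Y)
      (p := fun c => W.tr Y (c * (y - H914.proj (W.isInternal Y) l y)) = 0) ?_ ?_ c
    · intro i c hc
      rw [mul_sub, map_sub]
      by_cases hi : i + l = 2 * Y.dim
      · rw [sub_eq_zero]
        symm
        refine gr_induction (W.isInternal Y)
          (p := fun b => W.tr Y (c * H914.proj (W.isInternal Y) l b) = W.tr Y (c * b)) ?_ ?_ y
        · intro l' b hb
          by_cases hl : l' = l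
          · subst hl; rw [proj_same _ hb]
          · rw [proj_ne _ hb hl, mul_zero, map_zero,
              W.tr_eq_zero (W.mul_mem hc hb) (by omega)]
        · intro b b' hb hb'
          rw [map_add, mul_add, mul_add, map_add, map_add, hb, hb']
      · rw [h i c hc hi, W.tr_eq_zero (W.mul_mem hc (proj_mem _ l y)) hi, sub_zero]
    · intro c c' hc hc'
      rw [add_mul, map_add, hc, hc', add_zero]
  rw [sub_eq_zero] at h1
  rw [h1]
  exact proj_mem _ l y

end Pair

section General

variable {W : WeilCohomology.{u, 0} ops} {Y Z : 𝒱.Obj} {E : Type} [Field E] [Algebra W.K E]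

lemma tr_ne {x y : HL W E Y} {i l : ℕ} (hx : IsDeg i x) (hy : IsDeg l y)
    (h : i + l ≠ 2 * Y.dim) : trL (mulL x y) = 0 :=
  (baseW W E).tr_eq_zero ((baseW W E).mul_mem (X := Y) hx hy) h

lemma mul_deg {x y : HL W E Y} {i l : ℕ} (hx : IsDeg i x) (hy : IsDeg l y) :
    IsDeg (i + l) (mulL x y) :=
  (baseW W E).mul_mem (X := Y) hx hy

lemma deg_ind {p : HL W E Y → Prop} (hgr : ∀ i, ∀ a, IsDeg i a → p a)
    (hadd : ∀ a b, p a → p b → p (a + b)) (a : HL W E Y) : p a :=
  gr_induction ((baseW W E).isInternal Y) (p := p) hgr hadd a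

/-- The projection to a degree. -/
noncomputable def pj (W : WeilCohomology.{u, 0} ops) (E : Type) [Field E] [Algebra W.K E]
    (Y : 𝒱.Obj) (l : ℕ) : HL W E Y →ₗ[E] HL W E Y :=
  (H914.proj ((baseW W E).isInternal Y) l : E ⊗[W.K] W.H Y →ₗ[E] E ⊗[W.K] W.H Y)

lemma pj_same {i : ℕ} {x : HL W E Y} (hx : IsDeg i x) : pj W E Y i x = x :=
  proj_same ((baseW W E).isInternal Y) hx

lemma pj_ne {i l : ℕ} {x : HL W E Y} (hx : IsDeg i x) (h : i ≠ l) : pj W E Y l x = 0 :=
  proj_ne ((baseW W E).isInternal Y) hx h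

lemma pj_mem (l : ℕ) (x : HL W E Y) : IsDeg l (pj W E Y l x) :=
  proj_mem ((baseW W E).isInternal Y) l x

/-- Degrees by duality. -/
lemma deg_pair {y : HL W E Y} {l : ℕ}
    (h : ∀ i, ∀ x : HL W E Y, IsDeg i x → i + l ≠ 2 * Y.dim → trL (mulL x y) = 0) : IsDeg l y :=
  deg_of_pair (W := baseW W E) (Y := Y) (y := y) (l := l) h

end General

/-- The degrees of the generated classes. -/
theorem gd : S_GD.{u} := by
  intro k _ 𝒱 ops T X ψ E _ _ φ S hS hφ hdeg n j x h
  induction h with
  | base hx =>
    obtain ⟨c, hc, rfl⟩ := hx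
    exact emL_deg (hS _ _ c hc)
  | add _ _ hx hy => exact Submodule.add_mem (grL T.W E (pw X _) _) hx hy
  | smul r _ hx => exact Submodule.smul_mem (grL T.W E (pw X _) _) _ hx
  | mul _ _ hx hy =>
    rw [mul_add]
    exact mul_deg hx hy
  | pull hf _ hx =>
    obtain ⟨g, -, rfl⟩ := hf
    exact mapL_deg g hx
  | @push n m i j x y f hf _ htr hij hx =>
    obtain ⟨g, -, rfl⟩ := hf
    refine deg_pair fun a z hz ha => ?_
    have h1 : trL (mulL z (show HL T.W E (pw X n) from y)) =
        trL (mulL (mapL g z) (show HL T.W E (pw X m) from x)) := htr z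
    rw [h1]
    refine tr_ne (mapL_deg g hz) hx ?_
    have h2 : j + (pw X n).dim = i + (pw X m).dim := hij
    omega
  | @frob n j x p q t hp hq hsp ht htpq _ hx =>
    obtain ⟨g, -, rfl⟩ := hp
    obtain ⟨g', -, rfl⟩ := hq
    let t' : HL T.W E (pw X (n + 1)) →ₗ[E] HL T.W E (pw X (n + 1)) :=
      { toFun := t
        map_add' := ht.1
        map_smul' := ht.2 }
    have key : ∀ (l : ℕ) (z : HL T.W E (pw X (n + 1))),
        z ∈ LinearMap.ker (t'.comp (pj T.W E (pw X (n + 1)) l) -
          (pj T.W E (pw X (n + 1)) l).comp t') := by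
      intro l z
      obtain ⟨N, hN⟩ : ∃ N, N = LinearMap.ker (t'.comp (pj T.W E (pw X (n + 1)) l) -
          (pj T.W E (pw X (n + 1)) l).comp t') := ⟨_, rfl⟩
      rw [← hN]
      refine hsp z {z | z ∈ N} ⟨N.zero_mem, fun x hx y hy => N.add_mem hx hy,
        fun c x hx => N.smul_mem c hx⟩ ?_
      rintro _ ⟨a, b, rfl⟩
      have hmem : ∀ (a : HL T.W E (pw X n)) (b : HL T.W E (pw X 0)),
          mulB T.W E _ (mapB E g a) (mapB E g' b) ∈ N := by
        intro a b
        refine deg_ind (p := fun a => mulB T.W E _ (mapB E g a) (mapB E g' b) ∈ N)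
          (fun i a ha => ?_) (fun a a' h h' => ?_) a
        · refine deg_ind (p := fun b => mulB T.W E _ (mapB E g a) (mapB E g' b) ∈ N)
            (fun m b hb => ?_) (fun b b' h h' => ?_) b
          · have h1 : IsDeg (i + m) (mulL (mapL g a) (mapL g' b)) :=
              mul_deg (mapL_deg g ha) (mapL_deg g' hb)
            have h2 : t' (mulL (mapL g a) (mapL g' b)) = mulL (mapL g a) (mapL g' (φ b)) :=
              htpq a b
            have h3 : IsDeg (i + m) (mulL (mapL g a) (mapL g' (φ b))) :=
              mul_deg (mapL_deg g ha) (mapL_deg g' (hdeg m b hb))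
            rw [hN, LinearMap.mem_ker]
            change t' (pj T.W E (pw X (n + 1)) l (mulL (mapL g a) (mapL g' b))) -
              pj T.W E (pw X (n + 1)) l (t' (mulL (mapL g a) (mapL g' b))) = 0
            by_cases hl : i + m = l
            · subst hl
              rw [pj_same h1, h2, pj_same h3, sub_self]
            · rw [h2, pj_ne h1 hl, pj_ne h3 hl, map_zero, sub_self]
          · rw [map_add, map_add]
            exact N.add_mem h h'
        · rw [map_add, map_add, LinearMap.add_apply]
          exact N.add_mem h h'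
      exact hmem a b
    have h2 : t' (pj T.W E (pw X (n + 1)) (2 * j) x) -
      pj T.W E (pw X (n + 1)) (2 * j) (t' x) = 0 := LinearMap.mem_ker.1 (key (2 * j) x)
    rw [pj_same hx, sub_eq_zero] at h2
    change IsDeg (2 * j) (t' x)
    rw [h2]
    exact pj_mem _ _

end Pool.Agent.N505.HR
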